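import Mathlib

namespace Pool.Agent.H.MP_600649_an

open Finset

theorem one_sub_pow (w : ℂ) (hw : ‖w‖ ≤ 1) (j : ℕ) : ‖1 - w ^ j‖ ≤ j * ‖1 - w‖ := by
  induction j with
  | zero => simp
  | succ j ih =>
    have e : 1 - w ^ (j + 1) = (1 - w ^ j) + w ^ j * (1 - w) := by ring
    have h : ‖w ^ j * (1 - w)‖ ≤ ‖1 - w‖ := by
      rw [norm_mul, norm_pow]
      exact mul_le_of_le_one_left (norm_nonneg _) (pow_le_one₀ (norm_nonneg _) hw)
    rw [e]; push_cast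
    linarith [norm_add_le (1 - w ^ j) (w ^ j * (1 - w))]

theorem step (w : ℂ) (hw : ‖w‖ ≤ 1) (q j : ℕ) (hq : 1 ≤ q) :
    ‖(1 / (q : ℂ) - 1 / ((q + 1 : ℕ) : ℂ)) * w ^ j‖ ≤ 1 / (q : ℝ) - 1 / ((q + 1 : ℕ) : ℝ) := by
  have h : (0 : ℝ) ≤ 1 / (q : ℝ) - 1 / ((q + 1 : ℕ) : ℝ) :=
    sub_nonneg.2 (one_div_le_one_div_of_le (by exact_mod_cast hq) (by simp))
  have e : (1 / (q : ℂ) - 1 / ((q + 1 : ℕ) : ℂ)) = ((1 / (q : ℝ) - 1 / ((q + 1 : ℕ) : ℝ) : ℝ) : ℂ) := by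
    push_cast; rfl
  rw [norm_mul, norm_pow, e, Complex.norm_of_nonneg h]
  exact mul_le_of_le_one_right h (pow_le_one₀ (norm_nonneg _) hw)

theorem one_term (w : ℂ) (hw : ‖w‖ ≤ 1) (q j : ℕ) : ‖1 / (q : ℂ) * w ^ j‖ ≤ 1 / (q : ℝ) := by
  rw [norm_mul, norm_pow, norm_div, norm_one, Complex.norm_natCast]
  exact mul_le_of_le_one_right (by positivity) (pow_le_one₀ (norm_nonneg _) hw)

theorem tail (w : ℂ) (hw : ‖w‖ ≤ 1) (N p : ℕ) (hp : 1 ≤ p) (q : ℕ) (hq : p ≤ q) (hN : q ≤ N + 1) :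
    ‖(1 - w) * ∑ k ∈ Ico p q, 1 / (k : ℂ) * (w ^ (N + 1 - k) - w ^ (N + k + 1)) -
      1 / (q : ℂ) * w ^ (N + 2 - q) - 1 / (q : ℂ) * w ^ (N + q + 1)‖ ≤ 4 / (p : ℝ) - 2 / q := by
  induction q, hq using Nat.le_induction with
  | base =>
    simp only [Ico_self, sum_empty, mul_zero, zero_sub]
    have := norm_sub_le (-(1 / (p : ℂ) * w ^ (N + 2 - p))) (1 / (p : ℂ) * w ^ (N + p + 1))
    rw [norm_neg] at this
    have a := one_term w hw p (N + 2 - p)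
    have b := one_term w hw p (N + p + 1)
    have : 4 / (p : ℝ) - 2 / p = 1 / p + 1 / p := by ring
    linarith
  | succ q hq ih =>
    have a := step w hw q (N + 1 - q) (by omega)
    have b := step w hw q (N + q + 2) (by omega)
    have c := (norm_add₃_le).trans (add_le_add (add_le_add (ih (by omega)) a) b)
    refine le_trans (le_of_eq ?_) (c.trans (le_of_eq (by ring)))
    congr 1
    rw [sum_Ico_succ_top hq, show N + 2 - (q + 1) = N + 1 - q by omega,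
      show N + 2 - q = N + 1 - q + 1 by omega]
    ring

theorem fejer (w : ℂ) (hw : ‖w‖ ≤ 1) (N : ℕ) :
    ‖∑ k ∈ Ico 1 (N + 1), 1 / (k : ℂ) * (w ^ (N + 1 - k) - w ^ (N + k + 1))‖ ≤ 6 := by
  by_cases h1 : w = 1
  · simp [h1]
  have d0 : 0 < ‖1 - w‖ := norm_pos_iff.2 (sub_ne_zero.2 (Ne.symm h1))
  have head : ∀ p, 1 ≤ p → p ≤ N + 1 → p ≤ ⌊1 / ‖1 - w‖⌋₊ + 1 →
      ‖∑ k ∈ Ico 1 p, 1 / (k : ℂ) * (w ^ (N + 1 - k) - w ^ (N + k + 1))‖ ≤ 2 := fun p p1 p2 p3 => by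
    refine (norm_sum_le _ _).trans ((sum_le_card_nsmul _ _ (2 * ‖1 - w‖) fun k hk => ?_).trans ?_)
    · rw [mem_Ico] at hk
      have e : w ^ (N + 1 - k) - w ^ (N + k + 1) = w ^ (N + 1 - k) * (1 - w ^ (2 * k)) := by
        rw [mul_sub, ← pow_add, mul_one]; congr 2; omega
      have k0 : (0 : ℝ) < k := by exact_mod_cast hk.1
      rw [e, norm_mul, norm_mul, norm_pow, norm_div, norm_one, Complex.norm_natCast, one_div,
        inv_mul_le_iff₀ k0]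
      refine (mul_le_of_le_one_left (norm_nonneg _) (pow_le_one₀ (norm_nonneg _) hw)).trans
        ((one_sub_pow w hw _).trans (le_of_eq ?_))
      push_cast; ring
    · have a : ((p - 1 : ℕ) : ℝ) ≤ 1 / ‖1 - w‖ :=
        le_trans (by exact_mod_cast (show p - 1 ≤ ⌊1 / ‖1 - w‖⌋₊ by omega))
          (Nat.floor_le (by positivity))
      rw [le_div_iff₀ d0] at a
      rw [Nat.card_Ico, nsmul_eq_mul]
      linarith
  by_cases h : N + 1 ≤ ⌊1 / ‖1 - w‖⌋₊ + 1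
  · exact (head _ (by omega) le_rfl h).trans (by norm_num)
  set p := ⌊1 / ‖1 - w‖⌋₊ + 1 with hp
  have a := head p (by omega) (by omega) le_rfl
  have b := tail w hw N p (by omega) (N + 1) (by omega) le_rfl
  have c1 := one_term w hw (N + 1) (N + 2 - (N + 1))
  have c2 := one_term w hw (N + 1) (N + (N + 1) + 1)
  have c := (norm_add₃_le).trans (add_le_add (add_le_add b c1) c2)
  have c3 : ‖1 - w‖ * ‖∑ k ∈ Ico p (N + 1), 1 / (k : ℂ) * (w ^ (N + 1 - k) - w ^ (N + k + 1))‖ ≤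
      4 / (p : ℝ) := by
    rw [← norm_mul]
    refine le_trans (le_of_eq ?_) (c.trans (le_of_eq (by ring)))
    congr 1; ring
  have c4 : 1 / ‖1 - w‖ < p := by rw [hp]; push_cast; exact Nat.lt_floor_add_one _
  have p0 : (0 : ℝ) < p := lt_trans (by positivity) c4
  rw [div_lt_iff₀ d0] at c4
  rw [le_div_iff₀ p0] at c3
  rw [← sum_Ico_consecutive _ (show 1 ≤ p by omega) (show p ≤ N + 1 by omega)]
  refine (norm_add_le _ _).trans ?_
  nlinarith [norm_nonneg (∑ k ∈ Ico p (N + 1), 1 / (k : ℂ) * (w ^ (N + 1 - k) - w ^ (N + k + 1)))]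

def ext {m : ℕ} (f : Fin m → ℂ) (n : ℕ) : ℂ := if h : n < m then f ⟨n, h⟩ else 0

theorem ext_le {m : ℕ} (f : Fin m → ℂ) (n : ℕ) : ‖ext f n‖ ≤ ‖f‖ := by
  unfold ext; split_ifs
  · exact norm_le_pi_norm f _
  · simp

def ev (m n : ℕ) : (Fin m → ℂ) →ₗ[ℂ] ℂ where
  toFun f := ext f n
  map_add' f g := by unfold ext; split_ifs <;> simp
  map_smul' c f := by unfold ext; split_ifs <;> simp

def S (m : ℕ) : Module.End ℂ (Fin m → ℂ) := LinearMap.pi fun i => ev m (i + 1)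

theorem ev_S (m n : ℕ) (f : Fin m → ℂ) : ev m n (S m f) = ev m (n + 1) f := by
  show ext (S m f) n = ext f (n + 1)
  by_cases h : n < m
  · rw [ext, dif_pos h]; rfl
  · rw [ext, ext, dif_neg h, dif_neg (by omega)]

theorem ev_pow (m k n : ℕ) (f : Fin m → ℂ) : ev m n ((S m ^ k) f) = ev m (n + k) f := by
  induction k generalizing n with
  | zero => rfl
  | succ k ih => rw [pow_succ', Module.End.mul_apply, ev_S, ih]; congr 2; omega

theorem ev_lt {m : ℕ} (f : Fin m → ℂ) (n : ℕ) (h : n < m) : ev m n f = f ⟨n, h⟩ := dif_pos h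

theorem apply_eq {m : ℕ} (f : Fin m → ℂ) (i : Fin m) : f i = ev m i f := (ev_lt f i i.2).symm

theorem S_pow_le (m k : ℕ) (f : Fin m → ℂ) : ‖(S m ^ k) f‖ ≤ ‖f‖ :=
  (pi_norm_le_iff_of_nonneg (norm_nonneg _)).2 fun i => by
    rw [apply_eq ((S m ^ k) f) i, ev_pow]; exact ext_le _ _

theorem S_nil (m : ℕ) : S m ^ m = 0 := by
  refine LinearMap.ext fun f => funext fun i => ?_
  rw [apply_eq ((S m ^ m) f) i, ev_pow]
  exact dif_neg (by omega)

noncomputable def r (m : ℕ) (z : ℂ) : Module.End ℂ (Fin m → ℂ) :=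
  (z - 1) • z⁻¹ • ∑ n ∈ range m, (z⁻¹ • S m) ^ n

theorem r_apply (m : ℕ) (z : ℂ) (hz : z ≠ 0) (f : Fin m → ℂ) :
    r m z f = ∑ n ∈ range m, (z⁻¹ ^ n - z⁻¹ ^ (n + 1)) • (S m ^ n) f := by
  simp only [r, smul_pow, LinearMap.smul_apply, LinearMap.sum_apply, smul_sum, smul_smul]
  refine sum_congr rfl fun n _ => ?_
  congr 1
  rw [pow_succ]; field_simp

theorem inv_le (z : ℂ) (hz : 1 < ‖z‖) : ‖z⁻¹‖ ≤ 1 := by
  rw [norm_inv]; exact inv_le_one_of_one_le₀ hz.le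

theorem r_le (m : ℕ) (z : ℂ) (hz : 1 < ‖z‖) (f : Fin m → ℂ) : ‖r m z f‖ ≤ 2 * m * ‖f‖ := by
  rw [r_apply m z (norm_pos_iff.1 (by linarith))]
  refine (norm_sum_le _ _).trans ((sum_le_card_nsmul _ _ (2 * ‖f‖) fun n _ => ?_).trans
    (le_of_eq (by simp; ring)))
  rw [norm_smul]
  refine mul_le_mul ((norm_sub_le _ _).trans ?_) (S_pow_le _ _ _) (norm_nonneg _) (by norm_num)
  rw [norm_pow, norm_pow]
  linarith [pow_le_one₀ (n := n) (norm_nonneg _) (inv_le z hz),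
    pow_le_one₀ (n := n + 1) (norm_nonneg _) (inv_le z hz)]

noncomputable def A (N n : ℕ) : ℂ :=
  ∑ k ∈ Ico 1 (N + 1), if N + 1 - k ≤ n ∧ n < N + k + 1 then 1 / (k : ℂ) else 0

theorem A_le (N n : ℕ) : ‖A N n‖ ≤ N := by
  refine (norm_sum_le _ _).trans ((sum_le_card_nsmul _ _ 1 fun k hk => ?_).trans (by simp))
  split_ifs
  · rw [norm_div, norm_one, Complex.norm_natCast]
    exact div_le_one_of_le₀ (by exact_mod_cast (mem_Ico.1 hk).1) (by positivity)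
  · simp

theorem A_zero (N : ℕ) : A N 0 = 0 :=
  sum_eq_zero fun k hk => if_neg (by rw [mem_Ico] at hk; omega)

theorem A_mid (N : ℕ) : Real.log (N + 1) ≤ ‖A N N‖ := by
  have e : A N N = ((harmonic N : ℝ) : ℂ) := by
    rw [A, sum_congr rfl fun k hk => if_pos (by rw [mem_Ico] at hk; omega), harmonic,
      sum_Ico_eq_sum_range]
    simp [add_comm]
  rw [e, Complex.norm_real]
  exact le_trans (by exact_mod_cast log_add_one_le_harmonic N) (le_abs_self _)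

theorem r_A (N : ℕ) (z : ℂ) (hz : 1 < ‖z‖) :
    ‖ev (2 * N + 1) 0 (r (2 * N + 1) z fun i => A N i)‖ ≤ 6 := by
  refine le_trans (le_of_eq ?_) (fejer z⁻¹ (inv_le z hz) N)
  congr 1
  rw [r_apply _ z (norm_pos_iff.1 (by linarith)), map_sum]
  rw [sum_congr rfl (g := fun n => (z⁻¹ ^ n - z⁻¹ ^ (n + 1)) * A N n) fun n hn => by
    rw [map_smul, ev_pow, zero_add]
    exact congrArg _ (dif_pos (mem_range.1 hn))]
  simp only [A, mul_sum]
  rw [sum_comm]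
  refine sum_congr rfl fun k hk => ?_
  rw [mem_Ico] at hk
  simp only [mul_ite, mul_zero]
  rw [← sum_filter, ← sum_mul, mul_comm]
  congr 1
  have : (range (2 * N + 1)).filter (fun n => N + 1 - k ≤ n ∧ n < N + k + 1) =
      Ico (N + 1 - k) (N + k + 1) := by
    ext n; simp; omega
  rw [this, ← neg_sub, ← sum_Ico_sub (fun n => z⁻¹ ^ n) (show N + 1 - k ≤ N + k + 1 by omega),
    ← sum_neg_distrib]
  simp

noncomputable def nm (m : ℕ) (α C : ℝ) (f : Fin m → ℂ) : ℝ :=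
  max (α * ‖f‖) (max ‖ev m 0 f‖ (⨆ z : {z : ℂ // 1 < ‖z‖}, ‖ev m 0 (r m z f)‖ / C))

theorem nm_le (m : ℕ) (α C : ℝ) (hC : 0 < C) (f : Fin m → ℂ) (c : ℝ) : nm m α C f ≤ c ↔
    α * ‖f‖ ≤ c ∧ ‖ev m 0 f‖ ≤ c ∧ ∀ z : ℂ, 1 < ‖z‖ → ‖ev m 0 (r m z f)‖ ≤ C * c := by
  have : Nonempty {z : ℂ // 1 < ‖z‖} := ⟨⟨2, by simp⟩⟩
  rw [nm, max_le_iff, max_le_iff, ciSup_le_iff ⟨2 * m * ‖f‖ / C, by
    rintro _ ⟨z, rfl⟩
    exact div_le_div_of_nonneg_right ((ext_le _ _).trans (r_le m z z.2 f)) hC.le⟩]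
  simp only [div_le_iff₀' hC, Subtype.forall]

def X (m : ℕ) : Type := Fin m → ℂ

instance (m : ℕ) : AddCommGroup (X m) := inferInstanceAs (AddCommGroup (Fin m → ℂ))

instance (m : ℕ) : Module ℂ (X m) := inferInstanceAs (Module ℂ (Fin m → ℂ))

instance (m : ℕ) : FiniteDimensional ℂ (X m) := inferInstanceAs (FiniteDimensional ℂ (Fin m → ℂ))

noncomputable def NN (m : ℕ) (α C : ℝ) (hα : 0 < α) (hC : 0 < C) : AddGroupNorm (X m) where
  toFun := nm m α C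
  map_zero' := le_antisymm ((nm_le m α C hC (0 : Fin m → ℂ) 0).2 ⟨by simp, by simp, by simp⟩)
    (le_trans (norm_nonneg _) ((le_max_left _ _).trans (le_max_right _ _)))
  add_le' := fun (z w : Fin m → ℂ) => by
    obtain ⟨a1, a2, a3⟩ := (nm_le m α C hC z _).1 le_rfl
    obtain ⟨b1, b2, b3⟩ := (nm_le m α C hC w _).1 le_rfl
    refine (nm_le m α C hC (z + w) _).2 ⟨?_, ?_, fun u hu => ?_⟩
    · nlinarith [norm_add_le z w]
    · rw [map_add]; exact (norm_add_le _ _).trans (add_le_add a2 b2)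
    · rw [map_add, map_add, mul_add]; exact (norm_add_le _ _).trans (add_le_add (a3 u hu) (b3 u hu))
  neg' := fun (z : Fin m → ℂ) => by
    show nm m α C (-z) = nm m α C z
    simp [nm]
  eq_zero_of_map_eq_zero' := fun (z : Fin m → ℂ) (h : nm m α C z = 0) => by
    have := ((nm_le m α C hC z 0).1 h.le).1
    exact norm_le_zero_iff.1 (by nlinarith [norm_nonneg z])

theorem nm_smul (m : ℕ) (α C : ℝ) (hC : 0 < C) (c : ℂ) (f : Fin m → ℂ) :
    nm m α C (c • f) ≤ ‖c‖ * nm m α C f := by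
  obtain ⟨a1, a2, a3⟩ := (nm_le m α C hC f _).1 le_rfl
  refine (nm_le m α C hC _ _).2 ⟨?_, ?_, fun u hu => ?_⟩
  · rw [norm_smul, mul_left_comm]; gcongr
  · rw [map_smul, norm_smul]; gcongr
  · rw [map_smul, map_smul, norm_smul, mul_left_comm]; gcongr; exact a3 u hu

theorem nm_r (m : ℕ) (α C : ℝ) (hα : 0 < α) (hC : 0 < C) (h1 : 2 * m ≤ C)
    (h2 : 4 * (m : ℝ) ^ 2 ≤ C ^ 2 * α) (z : ℂ) (hz : 1 < ‖z‖) (f : Fin m → ℂ) :
    nm m α C (r m z f) ≤ C * nm m α C f := by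
  obtain ⟨a1, a2, a3⟩ := (nm_le m α C hC f _).1 le_rfl
  have b := r_le m z hz f
  have f0 := norm_nonneg f
  refine (nm_le m α C hC _ _).2 ⟨?_, a3 z hz, fun u hu => ?_⟩
  · calc α * ‖r m z f‖ ≤ α * (C * ‖f‖) := by gcongr; exact b.trans (by gcongr)
      _ = C * (α * ‖f‖) := by ring
      _ ≤ _ := by gcongr
  · calc _ ≤ 2 * m * ‖r m z f‖ := (ext_le _ _).trans (r_le m u hu _)
      _ ≤ 2 * m * (2 * m * ‖f‖) := by gcongr
      _ = 4 * (m : ℝ) ^ 2 * ‖f‖ := by ring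
      _ ≤ C ^ 2 * α * ‖f‖ := by gcongr
      _ = C * (C * (α * ‖f‖)) := by ring
      _ ≤ _ := by gcongr

theorem nil_res {Y : Type} [NormedAddCommGroup Y] [NormedSpace ℂ Y] (T : Y →L[ℂ] Y) (m : ℕ)
    (hT : T ^ m = 0) (z : ℂ) (hz : z ≠ 0) : z ∉ spectrum ℂ T ∧
      resolvent T z = z⁻¹ • ∑ n ∈ range m, (z⁻¹ • T) ^ n := by
  have e : algebraMap ℂ (Y →L[ℂ] Y) z - T = z • (1 - z⁻¹ • T) := by
    rw [smul_sub, smul_inv_smul₀ hz, Algebra.algebraMap_eq_smul_one]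
  have p : (z⁻¹ • T) ^ m = 0 := by rw [smul_pow, hT, smul_zero]
  let u : (Y →L[ℂ] Y)ˣ := ⟨algebraMap ℂ (Y →L[ℂ] Y) z - T, z⁻¹ • ∑ n ∈ range m, (z⁻¹ • T) ^ n,
    by rw [e, smul_mul_smul_comm, mul_inv_cancel₀ hz, one_smul, mul_neg_geom_sum, p, sub_zero],
    by rw [e, smul_mul_smul_comm, inv_mul_cancel₀ hz, one_smul, geom_sum_mul_neg, p, sub_zero]⟩
  exact ⟨spectrum.notMem_iff.2 u.isUnit, Ring.inverse_unit u⟩

theorem main (C : ℝ) (hC : 37 ≤ C) : ∃ (Y : Type) (_ : NormedAddCommGroup Y) (_ : NormedSpace ℂ Y)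
    (_ : FiniteDimensional ℂ Y) (T : Y →L[ℂ] Y), spectrum ℂ T ⊆ Metric.closedBall 0 1 ∧
      (∀ z : ℂ, 1 < ‖z‖ → ‖(z - 1) • resolvent T z‖ ≤ C) ∧
      ∃ n : ℕ, 1 / 36 * C * Real.log (1 + C) ≤ ‖T ^ n‖ := by
  obtain ⟨N, N1, h1, h2⟩ : ∃ N : ℕ, 1 ≤ N ∧ 6 * (N : ℝ) ^ 3 ≤ C ∧ C < 6 * ((N : ℝ) + 1) ^ 3 := by
    have ex : ∃ n : ℕ, C < 6 * ((n : ℝ) + 1) ^ 3 := by
      obtain ⟨n, hn⟩ := exists_nat_gt C
      have : (0 : ℝ) ≤ n := n.cast_nonneg
      exact ⟨n, by nlinarith [pow_nonneg this 3, pow_nonneg this 2]⟩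
    have s := Nat.find_spec ex
    rcases h0 : Nat.find ex with _ | n
    · rw [h0] at s; norm_num at s; linarith
    · have := Nat.find_min ex (m := n) (by omega)
      exact ⟨n + 1, by omega, by push_cast; linarith, h0 ▸ s⟩
  have C0 : 0 < C := by linarith
  have N0 : (1 : ℝ) ≤ N := by exact_mod_cast N1
  have hα : 0 < 6 / (C * N) := by positivity
  let _ := (NN (2 * N + 1) _ C hα C0).toNormedAddCommGroup
  let _ : NormedSpace ℂ (X (2 * N + 1)) := ⟨nm_smul _ _ C C0⟩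
  let T : X (2 * N + 1) →L[ℂ] X (2 * N + 1) :=
    LinearMap.toContinuousLinearMap (E := X (2 * N + 1)) (S (2 * N + 1))
  have Tp : ∀ (k : ℕ) (f : X (2 * N + 1)), (T ^ k) f = (S (2 * N + 1) ^ k) f := fun k f => by
    induction k with
    | zero => rfl
    | succ k ih => rw [pow_succ', pow_succ', mul_apply_eq_comp, ih]; rfl
  have hT : T ^ (2 * N + 1) = 0 := ContinuousLinearMap.ext fun f => by rw [Tp, S_nil]; rfl
  refine ⟨X (2 * N + 1), inferInstance, inferInstance, inferInstance, T, fun z hz => ?_,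
    fun z hz => ?_, N, ?_⟩
  · by_contra h
    exact (nil_res T _ hT z (by rintro rfl; simp at h)).1 hz
  · rw [(nil_res T _ hT z (norm_pos_iff.1 (by linarith))).2]
    refine ContinuousLinearMap.opNorm_le_bound _ C0.le fun f => ?_
    refine le_trans (le_of_eq (congrArg (nm _ _ C) ?_)) (nm_r _ _ C hα C0 ?_ ?_ z hz f)
    · simp only [r, smul_pow, _root_.smul_apply, _root_.sum_apply, Tp]
      rw [LinearMap.smul_apply, LinearMap.smul_apply, LinearMap.sum_apply]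
      rfl
    · push_cast; nlinarith [mul_self_le_mul_self zero_le_one N0]
    · have : C ^ 2 * (6 / (C * N)) = 6 * C / N := by field_simp
      rw [this, le_div_iff₀ (by positivity)]
      push_cast; nlinarith [mul_self_le_mul_self zero_le_one N0]
  · let a : Fin (2 * N + 1) → ℂ := ((C / 6 : ℝ) : ℂ) • fun i : Fin (2 * N + 1) => A N i
    have nC : ‖((C / 6 : ℝ) : ℂ)‖ = C / 6 := Complex.norm_of_nonneg (by positivity)
    have a1 : nm _ (6 / (C * N)) C a ≤ 1 := (nm_le _ _ C C0 a 1).2 ⟨?_, ?_, fun z hz => ?_⟩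
    · have a2 := (T ^ N).le_of_opNorm_le_of_le le_rfl (x := a) a1
      have a3 : ‖ev _ 0 ((S (2 * N + 1) ^ N) a)‖ ≤ ‖(T ^ N) a‖ := by
        rw [Tp]; exact ((nm_le _ _ C C0 _ _).1 le_rfl).2.1
      rw [ev_pow, zero_add, map_smul, norm_smul, nC] at a3
      have a4 : ev (2 * N + 1) N (fun i => A N i) = A N N := ev_lt _ _ (by omega)
      have a5 := A_mid N
      have a6 : Real.log (1 + C) ≤ 6 * Real.log (N + 1) := by
        have := Real.log_pow ((N : ℝ) + 1) 6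
        push_cast at this
        rw [← this]
        refine Real.log_le_log (by positivity) ?_
        have e : ((N : ℝ) + 1) ^ 6 = (((N : ℝ) + 1) ^ 3) ^ 2 := by ring
        rw [e]; nlinarith
      rw [a4] at a3
      nlinarith
    · have : ‖fun i : Fin (2 * N + 1) => A N i‖ ≤ N :=
        (pi_norm_le_iff_of_nonneg (by positivity)).2 fun i => A_le N i
      rw [norm_smul, nC]
      calc _ ≤ 6 / (C * N) * (C / 6 * N) := by gcongr
        _ = 1 := by field_simp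
    · have : ev (2 * N + 1) 0 (fun i => A N i) = A N 0 := ev_lt _ _ (by omega)
      rw [map_smul, this, A_zero]; simp
    · rw [map_smul, map_smul, norm_smul, nC]
      nlinarith [r_A N z hz]

end Pool.Agent.H.MP_600649_an
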